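import Pool.Agent.R997.EqT.Til

/-!
# The equilateral triangle with the side 960 is tiled by 11520 triangles with the sides 5, 16, 19

The triangle is cut into three trapezoids, each of them into four strips of height 80 (in the
direction of a side), and each strip into a parallelogram, a trapezoid of tiles whose sides 19 lie
on the lower side of the strip, and two triangles similar to the tile.
-/

set_option autoImplicit false

open Set

namespace Pool.Agent.R997.EqT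

/-- left triangle of the core at `(u, v)` -/
def KL (u v : ℝ) : Set (ℝ × ℝ) := {z | u ≤ z.1 ∧ z.2 ≤ v + 80 ∧ 16 * (z.1 - u) ≤ 5 * (z.2 - v)}
/-- first middle piece -/
def KA (u v : ℝ) : Set (ℝ × ℝ) :=
  {z | v ≤ z.2 ∧ 5 * (z.2 - v) ≤ 16 * (z.1 - u) ∧ 5 * (z.1 - u) + 21 * (z.2 - v) ≤ 1805}
/-- second middle piece -/
def KB (u v : ℝ) : Set (ℝ × ℝ) :=
  {z | v ≤ z.2 ∧ z.2 ≤ v + 80 ∧ 1805 ≤ 5 * (z.1 - u) + 21 * (z.2 - v) ∧
    5 * (z.1 - u) + 21 * (z.2 - v) ≤ 1900}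
/-- right triangle -/
def KR (u v : ℝ) : Set (ℝ × ℝ) :=
  {z | z.2 ≤ v + 80 ∧ 1900 ≤ 5 * (z.1 - u) + 21 * (z.2 - v) ∧ (z.1 - u) + (z.2 - v) ≤ 380}
/-- the core: the isosceles trapezoid with the long side 380 and the height 80 -/
def K (u v : ℝ) : Set (ℝ × ℝ) :=
  {z | v ≤ z.2 ∧ z.2 ≤ v + 80 ∧ u ≤ z.1 ∧ (z.1 - u) + (z.2 - v) ≤ 380}

lemma til_KL (u v : ℝ) : Til (KL u v) 25 := by
  have h : Lab ((5, 0) : ℝ × ℝ) (0, -16) := by left; norm_num [q]
  have h2 := til_tri h (by norm_num [dt]) 4 (u, v + 80)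
  convert h2 using 1
  swap
  · norm_num
  ext z
  simp only [KL, Tri, mem_ofPred_eq]
  constructor
  · rintro ⟨h1, h2, h3⟩
    refine ⟨(z.1 - u) / 5, (v + 80 - z.2) / 16, by linarith, by linarith, by push_cast; linarith, ?_⟩
    ext <;> simp
  · rintro ⟨s, t, hs, ht, hst, rfl⟩
    push_cast at hst
    refine ⟨?_, ?_, ?_⟩ <;> simp <;> linarith

lemma til_KA (u v : ℝ) : Til (KA u v) 361 := by
  have h : Lab ((19, 0) : ℝ × ℝ) (25 / 19, 80 / 19) := by right; right; left; norm_num [q]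
  have h2 := til_tri h (by norm_num [dt]) 18 (u, v)
  convert h2 using 1
  swap
  · norm_num
  ext z
  simp only [KA, Tri, mem_ofPred_eq]
  constructor
  · rintro ⟨h1, h2, h3⟩
    refine ⟨(16 * (z.1 - u) - 5 * (z.2 - v)) / 304, (z.2 - v) * (19 / 80), by linarith,
      by linarith, by push_cast; linarith, ?_⟩
    ext <;> simp <;> ring
  · rintro ⟨s, t, hs, ht, hst, rfl⟩
    push_cast at hst
    refine ⟨?_, ?_, ?_⟩ <;> simp <;> linarith

lemma til_KB (u v : ℝ) : Til (KB u v) 38 := by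
  have h : Lab ((-19, 0) : ℝ × ℝ) (-336 / 19, 80 / 19) := by right; right; right; norm_num [q]
  have h2 := til_par h (by norm_num [dt]) 0 18 (u + 380, v)
  convert h2 using 1
  ext z
  simp only [KB, Par, mem_ofPred_eq]
  constructor
  · rintro ⟨h1, h2, h3, h4⟩
    refine ⟨(1900 - (5 * (z.1 - u) + 21 * (z.2 - v))) / 95, (z.2 - v) * (19 / 80), by linarith,
      by push_cast; linarith, by linarith, by push_cast; linarith, ?_⟩
    ext <;> simp <;> ring
  · rintro ⟨s, t, hs, hs1, ht, ht1, rfl⟩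
    push_cast at hs1 ht1
    refine ⟨?_, ?_, ?_, ?_⟩ <;> simp <;> linarith

lemma til_KR (u v : ℝ) : Til (KR u v) 256 := by
  have h : Lab ((-16, 0) : ℝ × ℝ) (5, -5) := by right; left; norm_num [q]
  have h2 := til_tri h (by norm_num [dt]) 15 (u + 300, v + 80)
  convert h2 using 1
  swap
  · norm_num
  ext z
  simp only [KR, Tri, mem_ofPred_eq]
  constructor
  · rintro ⟨h1, h2, h3⟩
    refine ⟨(380 - (z.1 - u) - (z.2 - v)) / 16, (v + 80 - z.2) / 5, by linarith, by linarith,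
      by push_cast; linarith, ?_⟩
    ext <;> simp <;> ring
  · rintro ⟨s, t, hs, ht, hst, rfl⟩
    push_cast at hst
    refine ⟨?_, ?_, ?_⟩ <;> simp <;> linarith

lemma til_K (u v : ℝ) : Til (K u v) 680 := by
  have h1 : Til (KL u v ∪ KA u v) 386 :=
    (til_KL u v).unionSep (til_KA u v) 16 (-5) (16 * u - 5 * v) (by norm_num)
      (by rintro z ⟨h1, h2, h3⟩; linarith) (by rintro z ⟨h1, h2, h3⟩; linarith) rfl rfl
  have h2 : Til (KB u v ∪ KR u v) 294 :=
    (til_KB u v).unionSep (til_KR u v) 5 21 (5 * u + 21 * v + 1900) (by norm_num)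
      (by rintro z ⟨h1, h2, h3, h4⟩; linarith) (by rintro z ⟨h1, h2, h3⟩; linarith) rfl rfl
  refine h1.unionSep h2 5 21 (5 * u + 21 * v + 1805) (by norm_num) ?_ ?_ ?_ rfl
  · rintro z (⟨h1, h2, h3⟩ | ⟨h1, h2, h3⟩) <;> linarith
  · rintro z (⟨h1, h2, h3, h4⟩ | ⟨h1, h2, h3⟩) <;> linarith
  · ext z
    simp only [KL, KA, KB, KR, K, Set.mem_union, mem_ofPred_eq]
    constructor
    · rintro ((⟨h1, h2, h3⟩ | ⟨h1, h2, h3⟩) | (⟨h1, h2, h3, h4⟩ | ⟨h1, h2, h3⟩)) <;>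
        refine ⟨?_, ?_, ?_, ?_⟩ <;> linarith
    · rintro ⟨h1, h2, h3, h4⟩
      rcases le_total (16 * (z.1 - u)) (5 * (z.2 - v)) with h | h
      · exact Or.inl (Or.inl ⟨h3, h2, h⟩)
      · rcases le_total (5 * (z.1 - u) + 21 * (z.2 - v)) 1805 with h' | h'
        · exact Or.inl (Or.inr ⟨h1, h, h'⟩)
        · rcases le_total (5 * (z.1 - u) + 21 * (z.2 - v)) 1900 with h'' | h''
          · exact Or.inr (Or.inl ⟨h1, h2, h', h''⟩)
          · exact Or.inr (Or.inr ⟨h2, h'', h4⟩)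

/-- a strip: the part of the strip `v ≤ z.2 ≤ v + 80` with `0 ≤ z.1`, `z.1 + z.2 ≤ 640` -/
def St (v : ℝ) : Set (ℝ × ℝ) := {z | v ≤ z.2 ∧ z.2 ≤ v + 80 ∧ 0 ≤ z.1 ∧ z.1 + z.2 ≤ 640}

lemma til_St (m : ℕ) (v : ℝ) (hv : v = 260 - 5 * (m + 1)) :
    Til (St v) (10 * (m + 1) + 680) := by
  have h : Lab ((-5, 0) : ℝ × ℝ) (0, 16) := by left; norm_num [q]
  have h2 := til_par h (by norm_num [dt]) m 4 (5 * (m + 1), v)
  refine h2.unionSep (til_K (5 * (m + 1)) v) 1 0 (5 * (m + 1)) (by norm_num) ?_ ?_ ?_ (by ring)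
  · rintro z ⟨s, t, hs, hs1, ht, ht1, rfl⟩
    simp; linarith
  · rintro z ⟨h1, h2, h3, h4⟩
    linarith
  · ext z
    simp only [St, K, Par, Set.mem_union, mem_ofPred_eq]
    have hm : (0 : ℝ) ≤ m := Nat.cast_nonneg m
    constructor
    · rintro (⟨s, t, hs, hs1, ht, ht1, rfl⟩ | ⟨h1, h2, h3, h4⟩)
      · push_cast at ht1
        refine ⟨?_, ?_, ?_, ?_⟩ <;> simp <;> linarith
      · refine ⟨?_, ?_, ?_, ?_⟩ <;> linarith
    · rintro ⟨h1, h2, h3, h4⟩
      rcases le_total z.1 (5 * (m + 1)) with h' | h'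
      · refine Or.inl ⟨(5 * (m + 1) - z.1) / 5, (z.2 - v) / 16, by linarith, by linarith,
          by linarith, by push_cast; linarith, ?_⟩
        ext <;> simp <;> ring
      · exact Or.inr ⟨h1, h2, h', by linarith⟩

/-- a third of the triangle -/
def Th : Set (ℝ × ℝ) := {z | 0 ≤ z.2 ∧ z.2 ≤ 320 ∧ 0 ≤ z.1 ∧ z.1 + z.2 ≤ 640}

lemma til_Th : Til Th 3840 := by
  have h0 := til_St 51 0 (by norm_num)
  have h1 := til_St 35 80 (by norm_num)
  have h2 := til_St 19 160 (by norm_num)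
  have h3 := til_St 3 240 (by norm_num)
  have a1 : Til (St 0 ∪ St 80) 2240 := h0.unionSep h1 0 1 80 (by norm_num)
    (by rintro z ⟨h1, h2, h3⟩; linarith) (by rintro z ⟨h1, h2, h3⟩; linarith) rfl (by norm_num)
  have a2 : Til (St 160 ∪ St 240) 1600 := h2.unionSep h3 0 1 240 (by norm_num)
    (by rintro z ⟨h1, h2, h3⟩; linarith) (by rintro z ⟨h1, h2, h3⟩; linarith) rfl (by norm_num)
  refine a1.unionSep a2 0 1 160 (by norm_num) ?_ ?_ ?_ (by norm_num)
  · rintro z (⟨h1, h2, h3⟩ | ⟨h1, h2, h3⟩) <;> linarith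
  · rintro z (⟨h1, h2, h3⟩ | ⟨h1, h2, h3⟩) <;> linarith
  · ext z
    simp only [St, Th, Set.mem_union, mem_ofPred_eq]
    constructor
    · rintro ((⟨h1, h2, h3, h4⟩ | ⟨h1, h2, h3, h4⟩) | (⟨h1, h2, h3, h4⟩ | ⟨h1, h2, h3, h4⟩)) <;>
        refine ⟨?_, ?_, ?_, ?_⟩ <;> linarith
    · rintro ⟨h1, h2, h3, h4⟩
      rcases le_total z.2 80 with h | h
      · exact Or.inl (Or.inl ⟨h1, by linarith, h3, h4⟩)
      · rcases le_total z.2 160 with h' | h'
        · exact Or.inl (Or.inr ⟨h, by linarith, h3, h4⟩)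
        · rcases le_total z.2 240 with h'' | h''
          · exact Or.inr (Or.inl ⟨h', by linarith, h3, h4⟩)
          · exact Or.inr (Or.inr ⟨h'', by linarith, h3, h4⟩)

/-- the rotation of the triangle by a third of a turn -/
def rot : (ℝ × ℝ) ≃ᵃ[ℝ] (ℝ × ℝ) where
  toFun z := (960 - z.1 - z.2, z.1)
  invFun z := (z.2, 960 - z.1 - z.2)
  left_inv z := by
    ext
    · rfl
    · show 960 - (960 - z.1 - z.2) - z.1 = z.2
      ring
  right_inv z := by
    ext
    · show 960 - z.2 - (960 - z.1 - z.2) = z.1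
      ring
    · rfl
  linear :=
    { toFun := fun z => (-z.1 - z.2, z.1)
      map_add' := by intro x y; ext <;> simp; ring
      map_smul' := by intro c x; ext <;> simp; ring
      invFun := fun z => (z.2, -z.1 - z.2)
      left_inv := by
        intro z
        ext
        · rfl
        · show -(-z.1 - z.2) - z.1 = z.2
          ring
      right_inv := by
        intro z
        ext
        · show -z.2 - (-z.1 - z.2) = z.1
          ring
        · rfl }
  map_vadd' := by intro p v; ext <;> simp <;> ring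

lemma rot_apply (z : ℝ × ℝ) : rot z = (960 - z.1 - z.2, z.1) := rfl

lemma rot_q (x y : ℝ × ℝ) : q (rot x - rot y) = q (x - y) := by
  simp only [rot_apply, q, Prod.mk_sub_mk, Prod.fst_sub, Prod.snd_sub]
  ring

lemma mem_rot {S : Set (ℝ × ℝ)} (z : ℝ × ℝ) : z ∈ rot '' S ↔ (z.2, 960 - z.1 - z.2) ∈ S := by
  constructor
  · rintro ⟨w, hw, rfl⟩
    rw [rot_apply]
    convert hw using 1
    ext
    · rfl
    · show 960 - (960 - w.1 - w.2) - w.1 = w.2
      ring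
  · intro h
    exact ⟨_, h, by simp [rot_apply]⟩

/-- the triangle -/
def Eq960 : Set (ℝ × ℝ) := {z | 0 ≤ z.1 ∧ 0 ≤ z.2 ∧ z.1 + z.2 ≤ 960}

lemma disj_union {A S T : Set (ℝ × ℝ)} (hS : IsClosed S)
    (h1 : Disjoint (interior A) (interior S)) (h2 : Disjoint (interior A) (interior T)) :
    Disjoint (interior A) (interior (S ∪ T)) := by
  rw [Set.disjoint_left] at *
  intro z hz hz'
  have hO : IsOpen (interior A ∩ interior (S ∪ T)) := isOpen_interior.inter isOpen_interior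
  by_cases hsub : interior A ∩ interior (S ∪ T) ⊆ S
  · exact h1 hz (interior_maximal hsub hO ⟨hz, hz'⟩)
  · obtain ⟨w, hw, hwS⟩ := Set.not_subset.mp hsub
    have hO' : IsOpen ((interior A ∩ interior (S ∪ T)) ∩ Sᶜ) := hO.inter hS.isOpen_compl
    have hsub' : (interior A ∩ interior (S ∪ T)) ∩ Sᶜ ⊆ T := by
      rintro x ⟨⟨_, hx⟩, hx'⟩
      rcases interior_subset hx with h | h
      · exact absurd h hx'
      · exact h
    exact h2 hw.1 (interior_maximal hsub' hO' ⟨hw, hwS⟩)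

/-- the second third -/
def Th2 : Set (ℝ × ℝ) := {z | z.1 + z.2 ≤ 960 ∧ 640 ≤ z.1 + z.2 ∧ 0 ≤ z.2 ∧ 320 ≤ z.1}
/-- the last third -/
def Th3 : Set (ℝ × ℝ) := {z | 0 ≤ z.1 ∧ z.1 ≤ 320 ∧ z.1 + z.2 ≤ 960 ∧ 320 ≤ z.2}

lemma rot_Th : rot '' Th = Th2 := by
  ext z
  rw [mem_rot]
  simp only [Th, Th2, mem_ofPred_eq]
  constructor
  · rintro ⟨h1, h2, h3, h4⟩
    exact ⟨by linarith, by linarith, h3, by linarith⟩
  · rintro ⟨h1, h2, h3, h4⟩
    exact ⟨by linarith, by linarith, h3, by linarith⟩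

lemma rot_Th2 : rot '' Th2 = Th3 := by
  ext z
  rw [mem_rot]
  simp only [Th2, Th3, mem_ofPred_eq]
  constructor
  · rintro ⟨h1, h2, h3, h4⟩
    exact ⟨by linarith, by linarith, by linarith, by linarith⟩
  · rintro ⟨h1, h2, h3, h4⟩
    exact ⟨by linarith, by linarith, by linarith, by linarith⟩

lemma closed_Th2 : IsClosed Th2 := by
  have h1 : IsClosed {z : ℝ × ℝ | z.1 + z.2 ≤ 960} :=
    isClosed_le (f := fun z : ℝ × ℝ => z.1 + z.2) (g := fun _ => (960 : ℝ)) (by fun_prop)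
      (by fun_prop)
  have h2 : IsClosed {z : ℝ × ℝ | 640 ≤ z.1 + z.2} :=
    isClosed_le (g := fun z : ℝ × ℝ => z.1 + z.2) (f := fun _ => (640 : ℝ)) (by fun_prop)
      (by fun_prop)
  have h3 : IsClosed {z : ℝ × ℝ | 0 ≤ z.2} :=
    isClosed_le (g := fun z : ℝ × ℝ => z.2) (f := fun _ => (0 : ℝ)) (by fun_prop) (by fun_prop)
  have h4 : IsClosed {z : ℝ × ℝ | 320 ≤ z.1} :=
    isClosed_le (g := fun z : ℝ × ℝ => z.1) (f := fun _ => (320 : ℝ)) (by fun_prop) (by fun_prop)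
  exact h1.inter (h2.inter (h3.inter h4))

theorem til_Eq960 : Til Eq960 11520 := by
  have h1 := til_Th
  have h2 := h1.map rot rot_q
  have h3 := h2.map rot rot_q
  rw [rot_Th] at h2 h3
  rw [rot_Th2] at h3
  have a1 : Til (Th2 ∪ Th3) 7680 := by
    refine h2.unionSep h3 (-1) 0 (-320) (by norm_num) ?_ ?_ rfl (by norm_num)
    · rintro z ⟨h1, h2, h3, h4⟩
      linarith
    · rintro z ⟨h1, h2, h3, h4⟩
      linarith
  have a2 := h1.union a1 (disj_union closed_Th2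
    (sep 1 1 640 (by norm_num) (by rintro z ⟨h1, h2, h3, h4⟩; linarith)
      (by rintro z ⟨h1, h2, h3, h4⟩; linarith))
    (sep 0 1 320 (by norm_num) (by rintro z ⟨h1, h2, h3, h4⟩; linarith)
      (by rintro z ⟨h1, h2, h3, h4⟩; linarith)))
  convert a2 using 1
  ext z
  simp only [Eq960, Th, Th2, Th3, Set.mem_union, mem_ofPred_eq]
  constructor
  · rintro ⟨h1, h2, h3⟩
    rcases le_total z.2 320 with h | h
    · rcases le_total (z.1 + z.2) 640 with h' | h'
      · exact Or.inl ⟨h2, h, h1, h'⟩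
      · exact Or.inr (Or.inl ⟨h3, h', h2, by linarith⟩)
    · rcases le_total z.1 320 with h' | h'
      · exact Or.inr (Or.inr ⟨h1, h', h3, h⟩)
      · exact Or.inr (Or.inl ⟨h3, by linarith, h2, h'⟩)
  · rintro (⟨h1, h2, h3, h4⟩ | ⟨h1, h2, h3, h4⟩ | ⟨h1, h2, h3, h4⟩) <;>
      refine ⟨?_, ?_, ?_⟩ <;> linarith

end Pool.Agent.R997.EqT
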