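import Mathlib

/-!
# Tilings by triangles with the sides 5, 16, 19, in coordinates

Points of the plane are written `u + v ω` with `ω = exp (π i / 3)`; the square of the distance is the
value of the form `u² + u v + v²`.
-/

set_option autoImplicit false

open Set

namespace Pool.Agent.R997.EqT

/-- the square of the length of `u + v ω` -/
def q (z : ℝ × ℝ) : ℝ := z.1 ^ 2 + z.1 * z.2 + z.2 ^ 2

/-- a triangle with the sides 5, 16, 19 -/
def cop (P : Fin 3 → ℝ × ℝ) : Prop :=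
  q (P 1 - P 2) = 25 ∧ q (P 2 - P 0) = 256 ∧ q (P 0 - P 1) = 361

/-- the triangle -/
def hl (P : Fin 3 → ℝ × ℝ) : Set (ℝ × ℝ) := convexHull ℝ (Set.range P)

/-- `S` is the union of `n` copies with disjoint interiors -/
def Til (S : Set (ℝ × ℝ)) (n : ℕ) : Prop :=
  ∃ (ι : Type) (_ : Fintype ι) (P : ι → Fin 3 → ℝ × ℝ), Fintype.card ι = n ∧ (∀ i, cop (P i)) ∧
    (⋃ i, hl (P i)) = S ∧ ∀ i j, i ≠ j → Disjoint (interior (hl (P i))) (interior (hl (P j)))

lemma sep {S T : Set (ℝ × ℝ)} (α β c : ℝ) (h : 0 < α ^ 2 + β ^ 2)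
    (hS : ∀ z ∈ S, α * z.1 + β * z.2 ≤ c) (hT : ∀ z ∈ T, c ≤ α * z.1 + β * z.2) :
    Disjoint (interior S) (interior T) := by
  rw [Set.disjoint_iff_inter_eq_empty]
  by_contra hne
  obtain ⟨z, hz⟩ := Set.nonempty_iff_ne_empty.mpr hne
  have ho : IsOpen (interior S ∩ interior T) := isOpen_interior.inter isOpen_interior
  have hc : Continuous fun e : ℝ => z + e • ((α, β) : ℝ × ℝ) := by fun_prop
  have h0 : (0 : ℝ) ∈ (fun e : ℝ => z + e • ((α, β) : ℝ × ℝ)) ⁻¹' (interior S ∩ interior T) := by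
    simpa [Prod.mk_zero_zero] using hz
  have hop := ho.preimage hc
  obtain ⟨ε, hε, hb⟩ := Metric.isOpen_iff.mp hop 0 h0
  have h1 : (ε / 2) ∈ Metric.ball (0 : ℝ) ε := by
    rw [Metric.mem_ball, Real.dist_eq, sub_zero, abs_of_pos (by linarith)]; linarith
  have h2 := hb h1
  simp only [mem_preimage, mem_inter_iff] at h2
  have h3 := hS _ (interior_subset h2.1)
  have h4 := hT _ (interior_subset hz.2)
  simp only [Prod.fst_add, Prod.smul_fst, smul_eq_mul, Prod.snd_add, Prod.smul_snd] at h3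
  nlinarith [mul_pos (half_pos hε) h]

lemma Til.union {S T : Set (ℝ × ℝ)} {m n : ℕ} (hS : Til S m) (hT : Til T n)
    (h : Disjoint (interior S) (interior T)) : Til (S ∪ T) (m + n) := by
  obtain ⟨ι, _, P, hc, hP, hU, hd⟩ := hS
  obtain ⟨κ, _, Q, hc', hQ, hU', hd'⟩ := hT
  have s1 : ∀ i, interior (hl (P i)) ⊆ interior S := fun i =>
    interior_mono (hU ▸ Set.subset_iUnion (fun i => hl (P i)) i)
  have s2 : ∀ i, interior (hl (Q i)) ⊆ interior T := fun i =>
    interior_mono (hU' ▸ Set.subset_iUnion (fun i => hl (Q i)) i)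
  refine ⟨ι ⊕ κ, inferInstance, Sum.elim P Q, by simp [hc, hc'], ?_, ?_, ?_⟩
  · rintro (i | i)
    · exact hP i
    · exact hQ i
  · rw [Set.iUnion_sum]
    simp [hU, hU']
  · rintro (i | i) (j | j) hij
    · exact hd i j fun e => hij (by rw [e])
    · exact h.mono (s1 i) (s2 j)
    · exact (h.mono (s1 j) (s2 i)).symm
    · exact hd' i j fun e => hij (by rw [e])

lemma Til.unionSep {S T U : Set (ℝ × ℝ)} {m n k : ℕ} (hS : Til S m) (hT : Til T n)
    (α β c : ℝ) (h : 0 < α ^ 2 + β ^ 2)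
    (h1 : ∀ z ∈ S, α * z.1 + β * z.2 ≤ c) (h2 : ∀ z ∈ T, c ≤ α * z.1 + β * z.2)
    (hU : S ∪ T = U) (hk : m + n = k) : Til U k := by
  subst hU hk
  exact hS.union hT (sep α β c h h1 h2)

lemma Til.map {S : Set (ℝ × ℝ)} {n : ℕ} (h : Til S n) (f : (ℝ × ℝ) ≃ᵃ[ℝ] (ℝ × ℝ))
    (hf : ∀ x y, q (f x - f y) = q (x - y)) : Til (f '' S) n := by
  obtain ⟨ι, _, P, hc, hP, hU, hd⟩ := h
  have key : ∀ i, hl (fun k => f (P i k)) = f '' hl (P i) := by
    intro i
    have := AffineMap.image_convexHull (f : (ℝ × ℝ) →ᵃ[ℝ] (ℝ × ℝ)) (Set.range (P i))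
    unfold hl
    rw [← Set.range_comp] at this
    exact this.symm
  refine ⟨ι, inferInstance, fun i k => f (P i k), hc, ?_, ?_, ?_⟩
  · intro i
    obtain ⟨a, b, c⟩ := hP i
    exact ⟨by rw [hf]; exact a, by rw [hf]; exact b, by rw [hf]; exact c⟩
  · rw [← hU, Set.image_iUnion]
    exact Set.iUnion_congr key
  · intro i j hij
    rw [key, key]
    have hh : ∀ A : Set (ℝ × ℝ), interior (f '' A) = f '' interior A := by
      intro A
      exact ((AffineEquiv.toContinuousAffineEquiv f).toHomeomorph.image_interior A).symm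
    rw [hh, hh]
    exact (Set.disjoint_image_iff f.injective).mpr (hd i j hij)

/-- a triangle spanned by `k x`, `k y` at `p` -/
def Tri (p x y : ℝ × ℝ) (k : ℝ) : Set (ℝ × ℝ) :=
  {z | ∃ s t : ℝ, 0 ≤ s ∧ 0 ≤ t ∧ s + t ≤ k ∧ z = p + s • x + t • y}

/-- a parallelogram spanned by `m x`, `n y` at `p` -/
def Par (p x y : ℝ × ℝ) (m n : ℝ) : Set (ℝ × ℝ) :=
  {z | ∃ s t : ℝ, 0 ≤ s ∧ s ≤ m ∧ 0 ≤ t ∧ t ≤ n ∧ z = p + s • x + t • y}

lemma hull_tri (p x y : ℝ × ℝ) : convexHull ℝ {p, p + x, p + y} = Tri p x y 1 := by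
  ext z
  rw [convexHull_insert (by simp)]
  simp only [convexHull_pair, mem_convexJoin, mem_singleton_iff, exists_eq_left, segment_eq_image,
    Set.mem_image, mem_Icc, Tri, mem_ofPred_eq]
  constructor
  · rintro ⟨a, ⟨θ, ⟨h0, h1⟩, rfl⟩, η, ⟨e0, e1⟩, rfl⟩
    refine ⟨η * (1 - θ), η * θ, mul_nonneg e0 (by linarith), mul_nonneg e0 h0, by nlinarith, ?_⟩
    ext <;> simp <;> ring
  · rintro ⟨s, t, hs, ht, hst, rfl⟩
    by_cases h : s + t = 0
    · have hs0 : s = 0 := by linarith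
      have ht0 : t = 0 := by linarith
      subst hs0 ht0
      refine ⟨p + x, ⟨0, by norm_num, by simp⟩, 0, by norm_num, by simp⟩
    · have hpos : 0 < s + t := lt_of_le_of_ne (by linarith) (Ne.symm h)
      refine ⟨_, ⟨t / (s + t), ⟨by positivity, by rw [div_le_one hpos]; linarith⟩, rfl⟩, s + t,
        ⟨by linarith, hst⟩, ?_⟩
      ext <;> simp <;> field_simp <;> ring

/-- a basis which spans a tile -/
def Lab (x y : ℝ × ℝ) : Prop :=
  (q x = 25 ∧ q y = 256 ∧ q (x - y) = 361) ∨ (q x = 256 ∧ q y = 25 ∧ q (x - y) = 361) ∨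
  (q x = 361 ∧ q y = 25 ∧ q (x - y) = 256) ∨ (q x = 361 ∧ q y = 256 ∧ q (x - y) = 25)

lemma q_neg (x : ℝ × ℝ) : q (-x) = q x := by simp [q]

lemma Lab.neg {x y : ℝ × ℝ} (h : Lab x y) : Lab (-x) (-y) := by
  unfold Lab at *
  rw [q_neg, q_neg, show -x - -y = -(x - y) by abel, q_neg]
  exact h

lemma til_one {x y : ℝ × ℝ} (h : Lab x y) (p : ℝ × ℝ) : Til (Tri p x y 1) 1 := by
  have main : ∀ P : Fin 3 → ℝ × ℝ, cop P → Set.range P = {p, p + x, p + y} →
      Til (Tri p x y 1) 1 := by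
    intro P hP hr
    refine ⟨Unit, inferInstance, fun _ => P, by simp, fun _ => hP, ?_, ?_⟩
    · simp only [hl, hr, hull_tri]
      exact Set.iUnion_const _
    · intro i j hij
      exact absurd (Subsingleton.elim i j) hij
  have hr : ∀ a b c : ℝ × ℝ, Set.range ![a, b, c] = {a, b, c} := by
    intro a b c
    ext z
    simp only [Matrix.range_cons, Matrix.range_empty, Set.union_empty, Set.mem_union,
      Set.mem_singleton_iff, Set.mem_insert_iff]
  have e1 : ∀ a b : ℝ × ℝ, q (a - b) = q (b - a) := by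
    intro a b
    rw [← q_neg, neg_sub]
  rcases h with ⟨a, b, c⟩ | ⟨a, b, c⟩ | ⟨a, b, c⟩ | ⟨a, b, c⟩
  · refine main ![p + y, p + x, p] ⟨?_, ?_, ?_⟩ ?_
    · simpa using a
    · simpa [q_neg] using b
    · rw [e1] at c; simpa using c
    · rw [hr]; ext z; simp; tauto
  · refine main ![p + x, p + y, p] ⟨?_, ?_, ?_⟩ ?_
    · simpa using b
    · simpa [q_neg] using a
    · simpa using c
    · rw [hr]; ext z; simp; tauto
  · refine main ![p + x, p, p + y] ⟨?_, ?_, ?_⟩ ?_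
    · simpa [q_neg] using b
    · rw [e1] at c; simpa using c
    · simpa using a
    · rw [hr]; ext z; simp; tauto
  · refine main ![p, p + x, p + y] ⟨?_, ?_, ?_⟩ ?_
    · simpa using c
    · simpa using b
    · simpa [q_neg] using a
    · rw [hr]

/-- the determinant -/
def dt (x y : ℝ × ℝ) : ℝ := x.1 * y.2 - x.2 * y.1

/-- splitting along `s = c` -/
lemma sepS {S T U : Set (ℝ × ℝ)} {m n k : ℕ} (p x y : ℝ × ℝ) (hd : dt x y ≠ 0) (c : ℝ)
    (hS : Til S m) (hT : Til T n)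
    (h1 : ∀ z ∈ S, ∃ s t : ℝ, s ≤ c ∧ z = p + s • x + t • y)
    (h2 : ∀ z ∈ T, ∃ s t : ℝ, c ≤ s ∧ z = p + s • x + t • y)
    (hU : S ∪ T = U) (hk : m + n = k) : Til U k := by
  have hy : 0 < (y.2 * dt x y) ^ 2 + (-y.1 * dt x y) ^ 2 := by
    have : y.2 ≠ 0 ∨ y.1 ≠ 0 := by
      by_contra h
      push Not at h
      exact hd (by simp [dt, h.1, h.2])
    rcases this with h | h
    · have : 0 < (y.2 * dt x y) ^ 2 := by positivity
      nlinarith [sq_nonneg (-y.1 * dt x y)]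
    · have : 0 < (-y.1 * dt x y) ^ 2 := by
        have : -y.1 * dt x y ≠ 0 := mul_ne_zero (neg_ne_zero.mpr h) hd
        positivity
      nlinarith [sq_nonneg (y.2 * dt x y)]
  have hd2 : 0 < dt x y ^ 2 := by positivity
  refine hS.unionSep hT (y.2 * dt x y) (-y.1 * dt x y)
    (y.2 * dt x y * p.1 + -y.1 * dt x y * p.2 + c * dt x y ^ 2) hy ?_ ?_ hU hk
  · intro z hz
    obtain ⟨s, t, hs, rfl⟩ := h1 z hz
    simp only [Prod.fst_add, Prod.smul_fst, smul_eq_mul, Prod.snd_add, Prod.smul_snd]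
    have : s * dt x y ^ 2 ≤ c * dt x y ^ 2 := mul_le_mul_of_nonneg_right hs hd2.le
    have e : y.2 * dt x y * (p.1 + s * x.1 + t * y.1) + -y.1 * dt x y * (p.2 + s * x.2 + t * y.2)
        = y.2 * dt x y * p.1 + -y.1 * dt x y * p.2 + s * dt x y ^ 2 := by
      unfold dt; ring
    rw [e]; linarith
  · intro z hz
    obtain ⟨s, t, hs, rfl⟩ := h2 z hz
    simp only [Prod.fst_add, Prod.smul_fst, smul_eq_mul, Prod.snd_add, Prod.smul_snd]
    have : c * dt x y ^ 2 ≤ s * dt x y ^ 2 := mul_le_mul_of_nonneg_right hs hd2.le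
    have e : y.2 * dt x y * (p.1 + s * x.1 + t * y.1) + -y.1 * dt x y * (p.2 + s * x.2 + t * y.2)
        = y.2 * dt x y * p.1 + -y.1 * dt x y * p.2 + s * dt x y ^ 2 := by
      unfold dt; ring
    rw [e]; linarith

/-- splitting along `t = c` -/
lemma sepT {S T U : Set (ℝ × ℝ)} {m n k : ℕ} (p x y : ℝ × ℝ) (hd : dt x y ≠ 0) (c : ℝ)
    (hS : Til S m) (hT : Til T n)
    (h1 : ∀ z ∈ S, ∃ s t : ℝ, t ≤ c ∧ z = p + s • x + t • y)
    (h2 : ∀ z ∈ T, ∃ s t : ℝ, c ≤ t ∧ z = p + s • x + t • y)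
    (hU : S ∪ T = U) (hk : m + n = k) : Til U k := by
  refine sepS p y x (by intro h; apply hd; unfold dt at *; linarith) c hS hT ?_ ?_ hU hk
  · intro z hz
    obtain ⟨s, t, hs, rfl⟩ := h1 z hz
    exact ⟨t, s, hs, by abel⟩
  · intro z hz
    obtain ⟨s, t, hs, rfl⟩ := h2 z hz
    exact ⟨t, s, hs, by abel⟩

lemma til_par1 {x y : ℝ × ℝ} (h : Lab x y) (hd : dt x y ≠ 0) (p : ℝ × ℝ) :
    Til (Par p x y 1 1) 2 := by
  refine sepS p x (y - x) (by intro e; apply hd; unfold dt at *; simp at e; linarith) 1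
    (til_one h p) (til_one h.neg (p + x + y)) ?_ ?_ ?_ rfl
  · rintro z ⟨s, t, hs, ht, hst, rfl⟩
    exact ⟨s + t, t, hst, by module⟩
  · rintro z ⟨s, t, hs, ht, hst, rfl⟩
    exact ⟨2 - s - t, 1 - t, by linarith, by module⟩
  · ext z
    simp only [Set.mem_union, Tri, Par, mem_ofPred_eq]
    constructor
    · rintro (⟨s, t, hs, ht, hst, rfl⟩ | ⟨s, t, hs, ht, hst, rfl⟩)
      · exact ⟨s, t, hs, by linarith, ht, by linarith, rfl⟩
      · exact ⟨1 - s, 1 - t, by linarith, by linarith, by linarith, by linarith, by module⟩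
    · rintro ⟨s, t, hs, hs1, ht, ht1, rfl⟩
      rcases le_total (s + t) 1 with h | h
      · exact Or.inl ⟨s, t, hs, ht, h, rfl⟩
      · exact Or.inr ⟨1 - s, 1 - t, by linarith, by linarith, by linarith, by module⟩

lemma til_parRow {x y : ℝ × ℝ} (h : Lab x y) (hd : dt x y ≠ 0) (m : ℕ) (p : ℝ × ℝ) :
    Til (Par p x y (m + 1) 1) (2 * (m + 1)) := by
  induction m with
  | zero => simpa using til_par1 h hd p
  | succ m ih =>
    refine sepS p x y hd (m + 1) ih (til_par1 h hd (p + ((m : ℝ) + 1) • x)) ?_ ?_ ?_ (by ring)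
    · rintro z ⟨s, t, hs, hs1, ht, ht1, rfl⟩
      exact ⟨s, t, hs1, rfl⟩
    · rintro z ⟨s, t, hs, hs1, ht, ht1, rfl⟩
      exact ⟨m + 1 + s, t, by linarith, by module⟩
    · ext z
      simp only [Set.mem_union, Par, mem_ofPred_eq]
      push_cast
      constructor
      · rintro (⟨s, t, hs, hs1, ht, ht1, rfl⟩ | ⟨s, t, hs, hs1, ht, ht1, rfl⟩)
        · exact ⟨s, t, hs, by linarith, ht, ht1, rfl⟩
        · exact ⟨m + 1 + s, t, by positivity, by linarith, ht, ht1, by module⟩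
      · rintro ⟨s, t, hs, hs1, ht, ht1, rfl⟩
        rcases le_total s (m + 1) with h | h
        · exact Or.inl ⟨s, t, hs, h, ht, ht1, rfl⟩
        · exact Or.inr ⟨s - (m + 1), t, by linarith, by linarith, ht, ht1, by module⟩

lemma til_par {x y : ℝ × ℝ} (h : Lab x y) (hd : dt x y ≠ 0) (m n : ℕ) (p : ℝ × ℝ) :
    Til (Par p x y (m + 1) (n + 1)) (2 * (m + 1) * (n + 1)) := by
  induction n with
  | zero => simpa using til_parRow h hd m p
  | succ n ih =>
    refine sepT p x y hd (n + 1) ih (til_parRow h hd m (p + ((n : ℝ) + 1) • y)) ?_ ?_ ?_ (by ring)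
    · rintro z ⟨s, t, hs, hs1, ht, ht1, rfl⟩
      exact ⟨s, t, ht1, rfl⟩
    · rintro z ⟨s, t, hs, hs1, ht, ht1, rfl⟩
      exact ⟨s, n + 1 + t, by linarith, by module⟩
    · ext z
      simp only [Set.mem_union, Par, mem_ofPred_eq]
      push_cast
      constructor
      · rintro (⟨s, t, hs, hs1, ht, ht1, rfl⟩ | ⟨s, t, hs, hs1, ht, ht1, rfl⟩)
        · exact ⟨s, t, hs, hs1, ht, by linarith, rfl⟩
        · exact ⟨s, n + 1 + t, hs, hs1, by positivity, by linarith, by module⟩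
      · rintro ⟨s, t, hs, hs1, ht, ht1, rfl⟩
        rcases le_total t (n + 1) with h | h
        · exact Or.inl ⟨s, t, hs, hs1, ht, h, rfl⟩
        · exact Or.inr ⟨s, t - (n + 1), hs, hs1, by linarith, by linarith, by module⟩

lemma til_tri {x y : ℝ × ℝ} (h : Lab x y) (hd : dt x y ≠ 0) (n : ℕ) (p : ℝ × ℝ) :
    Til (Tri p x y (n + 1)) ((n + 1) ^ 2) := by
  induction n generalizing p with
  | zero => simpa using til_one h p
  | succ n ih =>
    -- the row `t ≤ 1` : a parallelogram and a triangle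
    have row : Til (Par p x y (n + 1) 1 ∪ Tri (p + ((n : ℝ) + 1) • x) x y 1)
        (2 * (n + 1) + 1) := by
      refine sepS p x y hd (n + 1) (til_parRow h hd n p) (til_one h (p + ((n : ℝ) + 1) • x)) ?_ ?_
        rfl rfl
      · rintro z ⟨s, t, hs, hs1, ht, ht1, rfl⟩
        exact ⟨s, t, hs1, rfl⟩
      · rintro z ⟨s, t, hs, ht, hst, rfl⟩
        exact ⟨n + 1 + s, t, by linarith, by module⟩
    refine sepT p x y hd 1 row (ih (p + y)) ?_ ?_ ?_ (by ring)
    · rintro z (⟨s, t, hs, hs1, ht, ht1, rfl⟩ | ⟨s, t, hs, ht, hst, rfl⟩)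
      · exact ⟨s, t, ht1, rfl⟩
      · exact ⟨n + 1 + s, t, by linarith, by module⟩
    · rintro z ⟨s, t, hs, ht, hst, rfl⟩
      exact ⟨s, 1 + t, by linarith, by module⟩
    · ext z
      simp only [Set.mem_union, Par, Tri, mem_ofPred_eq]
      push_cast
      constructor
      · rintro ((⟨s, t, hs, hs1, ht, ht1, rfl⟩ | ⟨s, t, hs, ht, hst, rfl⟩) |
          ⟨s, t, hs, ht, hst, rfl⟩)
        · exact ⟨s, t, hs, ht, by linarith, rfl⟩
        · exact ⟨n + 1 + s, t, by positivity, ht, by linarith, by module⟩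
        · exact ⟨s, 1 + t, hs, by linarith, by linarith, by module⟩
      · rintro ⟨s, t, hs, ht, hst, rfl⟩
        rcases le_total t 1 with h | h
        · rcases le_total s (n + 1) with h' | h'
          · exact Or.inl (Or.inl ⟨s, t, hs, h', ht, h, rfl⟩)
          · exact Or.inl (Or.inr ⟨s - (n + 1), t, by linarith, ht, by linarith, by module⟩)
        · exact Or.inr ⟨s, t - 1, hs, by linarith, by linarith, by module⟩

end Pool.Agent.R997.EqT
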